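import Pool.Agent.N821.CS.Stm

set_option autoImplicit false

/-!
# CS/DB (helper143): close matrix entries make the distance small
-/

namespace Pool.Agent.N143.CS

open scoped InnerProductSpace NNReal Topology
open Filter TopologicalSpace
open Pool.Agent.N821.CS

universe u

variable {H : Type u} [NormedAddCommGroup H] [InnerProductSpace ℂ H]

/-- the weight -/
noncomputable def w (p : ℕ × ℕ × ℕ) : ℝ := (1 / 2 : ℝ) ^ ((p.1 + 1) + (p.2.1 + 1) + (p.2.2 + 1))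

theorem w_nonneg (p : ℕ × ℕ × ℕ) : 0 ≤ w p := by unfold w; positivity

theorem w_le_one (p : ℕ × ℕ × ℕ) : w p ≤ 1 := by
  unfold w
  exact pow_le_one₀ (by norm_num) (by norm_num)

theorem summable_w : Summable w := by
  have h : Summable (fun n : ℕ => (1 / 2 : ℝ) ^ (n + 1)) :=
    (summable_nat_add_iff 1).2 summable_geometric_two
  have h0 : ∀ n : ℕ, 0 ≤ (1 / 2 : ℝ) ^ (n + 1) := fun n => by positivity
  have h2 : Summable (fun p : ℕ × ℕ => (1 / 2 : ℝ) ^ (p.1 + 1) * (1 / 2 : ℝ) ^ (p.2 + 1)) :=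
    h.mul_of_nonneg h h0 h0
  have h3 : Summable (fun p : ℕ × ℕ × ℕ => (1 / 2 : ℝ) ^ (p.1 + 1) *
      ((1 / 2 : ℝ) ^ (p.2.1 + 1) * (1 / 2 : ℝ) ^ (p.2.2 + 1))) :=
    h.mul_of_nonneg h2 h0 fun p => by positivity
  refine h3.congr fun p => ?_
  unfold w
  rw [pow_add (1 / 2 : ℝ) (p.1 + 1 + (p.2.1 + 1)) (p.2.2 + 1), pow_add (1 / 2 : ℝ) (p.1 + 1) (p.2.1 + 1)]
  ring

theorem entry_le (x : ℕ → H) (T S : CSG H) (i j : ℕ) (t : ℝ≥0) :
    ‖⟪(T.op t - S.op t) (x i), x j⟫_ℂ‖ ≤ 2 * (‖x i‖ * ‖x j‖) := by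
  have h1 : ‖(T.op t - S.op t) (x i)‖ ≤ 2 * ‖x i‖ := by
    rw [sub_apply]
    refine (norm_sub_le _ _).trans ?_
    have a1 := (T.op t).le_of_opNorm_le (T.norm_le t) (x i)
    have a2 := (S.op t).le_of_opNorm_le (S.norm_le t) (x i)
    linarith
  refine (norm_inner_le_norm _ _).trans ?_
  calc ‖(T.op t - S.op t) (x i)‖ * ‖x j‖ ≤ (2 * ‖x i‖) * ‖x j‖ :=
        mul_le_mul_of_nonneg_right h1 (norm_nonneg _)
    _ = 2 * (‖x i‖ * ‖x j‖) := by ring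

theorem term_nonneg (x : ℕ → H) (T S : CSG H) (n i j : ℕ) : 0 ≤ term x T S n i j := by
  unfold term
  refine div_nonneg (Real.iSup_nonneg fun t => norm_nonneg _) (by positivity)

theorem term_le (x : ℕ → H) (hx : ∀ i, x i ≠ 0) (T S : CSG H) (n i j : ℕ) (δ : ℝ)
    (h : ∀ t : ℝ≥0, t ≤ n → ‖⟪(T.op t - S.op t) (x i), x j⟫_ℂ‖ ≤ δ) :
    term x T S n i j ≤ δ / (‖x i‖ * ‖x j‖) := by
  have hi : 0 < ‖x i‖ := norm_pos_iff.2 (hx i)
  have hj : 0 < ‖x j‖ := norm_pos_iff.2 (hx j)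
  unfold term
  refine div_le_div_of_nonneg_right ?_ (by positivity)
  have : Nonempty {t : ℝ≥0 // t ≤ n} := ⟨⟨0, bot_le⟩⟩
  exact ciSup_le fun t => h t.1 t.2

theorem term_le_two (x : ℕ → H) (hx : ∀ i, x i ≠ 0) (T S : CSG H) (n i j : ℕ) :
    term x T S n i j ≤ 2 := by
  have hi : 0 < ‖x i‖ := norm_pos_iff.2 (hx i)
  have hj : 0 < ‖x j‖ := norm_pos_iff.2 (hx j)
  refine (term_le x hx T S n i j _ fun t _ => entry_le x T S i j t).trans ?_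
  rw [mul_div_assoc, div_self (by positivity), mul_one]

theorem t : S_DB := by
  classical
  intro H _ _ x hx ε hε
  have hg : Summable (fun p => 2 * w p) := summable_w.mul_left 2
  obtain ⟨s, hs⟩ : ∃ s : Finset (ℕ × ℕ × ℕ), ∑' p, 2 * w p < ∑ p ∈ s, 2 * w p + ε / 2 := by
    have h1 := hg.hasSum
    have h2 := (h1.eventually (lt_mem_nhds (show ∑' p, 2 * w p - ε / 2 < ∑' p, 2 * w p by
      linarith))).exists
    obtain ⟨s, hs⟩ := h2
    exact ⟨s, by linarith⟩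
  obtain ⟨C, hC⟩ : ∃ C : ℝ, C = ∑ p ∈ s, 1 / (‖x p.2.1‖ * ‖x p.2.2‖) := ⟨_, rfl⟩
  have hC0 : 0 ≤ C := by
    rw [hC]; exact Finset.sum_nonneg fun p _ => by positivity
  refine ⟨s.sup (fun p => p.1 + p.2.1 + p.2.2 + 1), ε / (2 * (C + 1)), by positivity, ?_⟩
  intro T S hTS
  have hN : ∀ p ∈ s, p.1 + p.2.1 + p.2.2 + 1 ≤ s.sup (fun p => p.1 + p.2.1 + p.2.2 + 1) :=
    fun p hp => Finset.le_sup (f := fun p : ℕ × ℕ × ℕ => p.1 + p.2.1 + p.2.2 + 1) hp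
  obtain ⟨δ, hδ⟩ : ∃ δ : ℝ, δ = ε / (2 * (C + 1)) := ⟨_, rfl⟩
  have hδ0 : 0 < δ := by rw [hδ]; positivity
  obtain ⟨a, ha⟩ : ∃ a : ℕ × ℕ × ℕ → ℝ, a = fun p => w p * term x T S (p.1 + 1) p.2.1 p.2.2 :=
    ⟨_, rfl⟩
  have ha2 : ∀ p, a p ≤ 2 * w p := by
    intro p
    rw [ha]
    have := mul_le_mul_of_nonneg_left (term_le_two x hx T S (p.1 + 1) p.2.1 p.2.2) (w_nonneg p)
    linarith
  have ha0 : ∀ p, 0 ≤ a p := by
    intro p
    rw [ha]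
    exact mul_nonneg (w_nonneg p) (term_nonneg _ _ _ _ _ _)
  have hasum : Summable a := Summable.of_nonneg_of_le ha0 ha2 hg
  have hd : d x T S = ∑' p, a p := by rw [ha]; rfl
  have hsmall : ∑ p ∈ s, a p ≤ δ * C := by
    rw [hC, Finset.mul_sum]
    refine Finset.sum_le_sum fun p hp => ?_
    have hNp := hN p hp
    have ht : term x T S (p.1 + 1) p.2.1 p.2.2 ≤ δ / (‖x p.2.1‖ * ‖x p.2.2‖) := by
      refine term_le x hx T S _ _ _ δ fun t ht => ?_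
      rw [hδ]
      refine (hTS p.2.1 (by omega) p.2.2 (by omega) t (ht.trans ?_)).le
      exact_mod_cast (show p.1 + 1 ≤ _ by omega)
    rw [ha]
    have h3 : 0 ≤ term x T S (p.1 + 1) p.2.1 p.2.2 := term_nonneg _ _ _ _ _ _
    calc w p * term x T S (p.1 + 1) p.2.1 p.2.2 ≤ 1 * term x T S (p.1 + 1) p.2.1 p.2.2 :=
          mul_le_mul_of_nonneg_right (w_le_one p) h3
      _ ≤ δ / (‖x p.2.1‖ * ‖x p.2.2‖) := by rw [one_mul]; exact ht
      _ = δ * (1 / (‖x p.2.1‖ * ‖x p.2.2‖)) := by ring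
  -- the tail
  have hb0 : ∀ p, 0 ≤ 2 * w p - a p := fun p => by linarith [ha2 p]
  have hbs : Summable (fun p => 2 * w p - a p) := hg.sub hasum
  have h5 : ∑ p ∈ s, (2 * w p - a p) ≤ ∑' p, (2 * w p - a p) :=
    hbs.sum_le_tsum s fun p _ => hb0 p
  rw [hg.tsum_sub hasum, Finset.sum_sub_distrib] at h5
  rw [hd]
  have h6 : δ * C < ε / 2 := by
    rw [hδ, div_mul_eq_mul_div, div_lt_div_iff₀ (by positivity) (by norm_num)]
    nlinarith
  linarith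

end Pool.Agent.N143.CS
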